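import Pool.Agent.H98.RFT.Targets
import Pool.Agent.H30.RFC.TRA

/-!
# Row TRQ of the board `rft_modules` (MP_057a7e_pr)
-/

set_option autoImplicit false

noncomputable section

open MeasureTheory ProbabilityTheory Pool.Agent.H98.RFC Pool.Agent.H98.RFZ Pool.Agent.H98.RFT

namespace Pool.Agent.H35.RFT

open Pool.Agent.H30.RFC

/-- the translation of pairs -/
abbrev tp (y : Site) : Site × Site ≃ Site × Site := (tau y).prodCongr (tau y)

/-- sums over subsets of an image under a bijection -/
theorem sum_pow_map' {α : Type} (e : α ≃ α) (Λ : Finset α) (f : Finset α → ℝ) :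
    ∑ S ∈ (Λ.map e.toEmbedding).powerset, f S
      = ∑ S ∈ Λ.powerset, f (S.map e.toEmbedding) := by
  symm
  refine Finset.sum_nbij' (fun S => S.map e.toEmbedding)
    (fun S => S.map e.symm.toEmbedding) ?_ ?_ ?_ ?_ ?_
  · intro S hS
    rw [Finset.mem_powerset] at hS ⊢
    exact Finset.map_subset_map.mpr hS
  · intro S hS
    rw [Finset.mem_powerset] at hS ⊢
    intro z hz
    rw [Finset.mem_map_equiv, Equiv.symm_symm] at hz
    have := hS hz
    rw [Finset.mem_map_equiv, Equiv.symm_apply_apply] at this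
    exact this
  · intro S _
    ext z
    simp only [Finset.mem_map_equiv, Equiv.symm_symm, Equiv.symm_apply_apply]
  · intro S _
    ext z
    simp only [Finset.mem_map_equiv, Equiv.symm_symm, Equiv.apply_symm_apply]
  · intro S _
    rfl

theorem qe_tp (J : Site → ℝ) (T : ℝ) (y : Site) (e : Site × Site) :
    qe J T (tp y e) = qe J T e := by
  unfold qe
  have h1 : (tp y e).1 - (tp y e).2 = e.1 - e.2 := by
    show tau y e.1 - tau y e.2 = e.1 - e.2
    rw [tau_apply, tau_apply]
    abel
  rw [h1]

theorem bw_map (J : Site → ℝ) (T : ℝ) (y : Site) (P ω : Finset (Site × Site)) :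
    bw (P.map (tp y).toEmbedding) (qe J T) (ω.map (tp y).toEmbedding) = bw P (qe J T) ω := by
  unfold bw
  have h1 : P.map (tp y).toEmbedding \ ω.map (tp y).toEmbedding =
      (P \ ω).map (tp y).toEmbedding := by
    ext z
    simp only [Finset.mem_sdiff, Finset.mem_map_equiv]
  rw [h1, Finset.prod_map, Finset.prod_map]
  congr 1
  · refine Finset.prod_congr rfl fun e _ => ?_
    rw [Equiv.coe_toEmbedding, qe_tp]
  · refine Finset.prod_congr rfl fun e _ => ?_
    rw [Equiv.coe_toEmbedding, qe_tp]

theorem Zf_map (R : ℕ) (J h : Site → ℝ) (T : ℝ) (y : Site) (Λ : Finset Site) (B : Set Site) :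
    Zf R J h T (Λ.map (tau y).toEmbedding) B =
      Zf R J (fun x => h (y + x)) T Λ ((tau y) ⁻¹' B) := by
  unfold Zf
  rw [sum_pow_map]
  simp only [wt_map]

theorem Qg_map (R : ℕ) (J h : Site → ℝ) (T : ℝ) (y : Site) (W : Finset Site) (B B' : Set Site)
    (F : Finset Site → Finset Site → Finset (Site × Site) → ℝ) :
    Qg R J h T (W.map (tau y).toEmbedding) B B' F =
      Qg R J (fun x => h (y + x)) T W ((tau y) ⁻¹' B) ((tau y) ⁻¹' B')
        (fun S S' ω => F (S.map (tau y).toEmbedding) (S'.map (tau y).toEmbedding)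
          (ω.map (tp y).toEmbedding)) := by
  unfold Qg
  rw [Zf_map, Zf_map, sum_pow_map, prs_map]
  congr 1
  refine Finset.sum_congr rfl fun S _ => ?_
  rw [sum_pow_map]
  refine Finset.sum_congr rfl fun S' _ => ?_
  rw [sum_pow_map' (tp y)]
  refine Finset.sum_congr rfl fun ω _ => ?_
  rw [wt_map, wt_map, bw_map]

theorem pre_compl (y : Site) (W : Finset Site) :
    (tau y) ⁻¹' ((↑(W.map (tau y).toEmbedding) : Set Site)ᶜ) = ((↑W : Set Site))ᶜ := by
  ext z
  simp only [Set.mem_preimage, Set.mem_compl_iff, Finset.mem_coe, Finset.mem_map_equiv,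
    Equiv.symm_apply_apply]

theorem Dq_map (y : Site) (W S S' : Finset Site) :
    Dq (W.map (tau y).toEmbedding) (S.map (tau y).toEmbedding) (S'.map (tau y).toEmbedding) =
      (fun x => y + x) '' Dq W S S' := by
  have h0 : (fun x => y + x) '' Dq W S S' = (tau y) '' Dq W S S' := rfl
  rw [h0, Equiv.image_eq_preimage_symm]
  ext z
  simp only [Dq, Set.mem_preimage, Set.mem_sdiff, Set.mem_union, Set.mem_compl_iff,
    Finset.mem_coe, Finset.mem_map_equiv]

theorem pf_TRQ : D_TRQ := by
  classical
  intro R J h T W y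
  have hi : ∀ S : Finset Site, S.image (fun x => y + x) = S.map (tau y).toEmbedding := by
    intro S
    rw [Finset.map_eq_image]
    rfl
  have hi2 : ∀ ω : Finset (Site × Site), ω.image (fun e => (y + e.1, y + e.2)) =
      ω.map (tp y).toEmbedding := by
    intro ω
    rw [Finset.map_eq_image]
    rfl
  have he : (tau y) ⁻¹' (∅ : Set Site) = ∅ := Set.preimage_empty
  constructor
  · intro A
    unfold QP Qd Qe
    rw [hi, Qg_map, pre_compl, he]
    simp only [Dq_map, hi2]
  · intro x
    unfold inf1
    rw [hi]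
    have h0 : y + x = tau y x := rfl
    rw [h0, mg_map, mg_map, pre_compl, he]

end Pool.Agent.H35.RFT
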